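import Mathlib
import Pool.Agent.R748.DomeFin

/-!
# MP_3a21c3_co, Q1: the negated form

The cube `[0,1]³`, its bottom face `X` and the pyramid `D` over `X` whose apex is the centre of the
cube: no plane through an edge of `X` that misses the interior of `D` cuts off a pyramid, so there
is no admissible first cut, and hence no successful admissible cutting sequence.
-/

namespace Pool.Agent.Results.MP_3a21c3_co.CubePyramidNoCut

open Pool.Agent.R748.Dome

/-- There are a convex polyhedron `P`, a face `X` of `P` and a g-dome `D ⊆ P` with base `X` such that
no finite admissible cutting sequence leads from `P` to `D`; in the example there is not even one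
admissible cut of `P`, and `P ≠ D`. -/
theorem result : ∃ P X D : Set E3, IsPolyhedron P ∧ IsFace 2 P X ∧ IsGDome D X ∧ D ⊆ P ∧
    P ≠ D ∧ (∀ P', ¬ Cut X D P P') ∧ ¬ Succeeds X D P :=
  ⟨cube, bot, pyr, cube_polyhedron, bot_face_cube, pyr_gdome, pyr_sub_cube, cube_ne_pyr, no_cut,
    not_succeeds⟩

end Pool.Agent.Results.MP_3a21c3_co.CubePyramidNoCut
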